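import Mathlib

set_option autoImplicit false

namespace Pool.Agent.Results.MP_73128c_co.Four

open Finset SimpleGraph

/-- The card `G - v`. -/
abbrev card' {V : Type} (G : SimpleGraph V) (v : V) : SimpleGraph {w | w ≠ v} :=
  G.induce {w | w ≠ v}

/-- The number of isomorphism types of cards: classes of vertices with isomorphic cards. -/
noncomputable def cardTypes {V : Type} (G : SimpleGraph V) : ℕ :=
  (Set.range (fun u => {v | Nonempty (card' G u ≃g card' G v)})).ncard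

/-- The number of orbits of the automorphism group on vertices. -/
noncomputable def orbits {V : Type} (G : SimpleGraph V) : ℕ :=
  (Set.range (fun u => {v | ∃ φ : G ≃g G, φ u = v})).ncard

def rows : Fin 9 → ℕ := ![120, 356, 226, 449, 417, 279, 143, 348, 186]

def G0 : SimpleGraph (Fin 9) where
  Adj a b := (rows a).testBit b.1 = true
  symm := ⟨by decide +kernel⟩
  loopless := ⟨by decide +kernel⟩

instance : DecidableRel G0.Adj := fun a b => by unfold G0; infer_instance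

def t : Fin 9 → Fin 9 := ![0, 1, 1, 1, 1, 5, 5, 7, 7]
def P : Fin 9 → Fin 9 → Fin 9 := ![![0, 1, 2, 3, 4, 5, 6, 7, 8], ![0, 1, 2, 3, 4, 5, 6, 7, 8], ![0, 2, 1, 4, 3, 6, 5, 8, 7], ![7, 3, 0, 8, 2, 6, 4, 5, 1], ![8, 4, 0, 7, 1, 5, 3, 6, 2], ![0, 1, 2, 3, 4, 5, 6, 7, 8], ![0, 2, 1, 4, 3, 6, 5, 8, 7], ![0, 1, 2, 3, 4, 5, 6, 7, 8], ![0, 2, 1, 4, 3, 6, 5, 8, 7]]
def Q : Fin 9 → Fin 9 → Fin 9 := ![![0, 1, 2, 3, 4, 5, 6, 7, 8], ![0, 1, 2, 3, 4, 5, 6, 7, 8], ![0, 2, 1, 4, 3, 6, 5, 8, 7], ![2, 8, 4, 1, 6, 7, 5, 0, 3], ![2, 4, 8, 6, 1, 5, 7, 3, 0], ![0, 1, 2, 3, 4, 5, 6, 7, 8], ![0, 2, 1, 4, 3, 6, 5, 8, 7], ![0, 1, 2, 3, 4, 5, 6, 7, 8], ![0, 2, 1, 4, 3, 6, 5, 8, 7]]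

theorem hP : ∀ v, (∀ a, a ≠ t v → P v a ≠ v ∧ Q v (P v a) = a) ∧
    (∀ a, a ≠ v → Q v a ≠ t v ∧ P v (Q v a) = a) ∧
    ∀ a b, a ≠ t v → b ≠ t v → (G0.Adj (P v a) (P v b) ↔ G0.Adj a b) := by decide +kernel

def isoT (v : Fin 9) : card' G0 (t v) ≃g card' G0 v where
  toFun a := ⟨P v a.1, ((hP v).1 a.1 a.2).1⟩
  invFun a := ⟨Q v a.1, ((hP v).2.1 a.1 a.2).1⟩
  left_inv a := Subtype.ext ((hP v).1 a.1 a.2).2
  right_inv a := Subtype.ext ((hP v).2.1 a.1 a.2).2
  map_rel_iff' := fun {a b} => (hP v).2.2 a.1 b.1 a.2 b.2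

def nb {V : Type} [Fintype V] (G : SimpleGraph V) [DecidableRel G.Adj] (c : V → ℕ) (v : V) : ℕ :=
  ∑ w, if G.Adj v w then c w else 0

theorem nb_iso {V W : Type} [Fintype V] [Fintype W] (G : SimpleGraph V) (H : SimpleGraph W)
    [DecidableRel G.Adj] [DecidableRel H.Adj] (φ : G ≃g H) (c : V → ℕ) (d : W → ℕ)
    (h : ∀ v, d (φ v) = c v) (v : V) : nb H d (φ v) = nb G c v := by
  unfold nb
  rw [← Equiv.sum_comp φ.toEquiv]
  refine sum_congr rfl (fun w _ => ?_)
  simp only [RelIso.coe_fn_toEquiv, h, φ.map_rel_iff]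

def inv1 {V : Type} [Fintype V] (G : SimpleGraph V) [DecidableRel G.Adj] : ℕ :=
  ∑ v, if nb G (fun _ => 1) v = 3 then 1 else 0

theorem inv1_iso {V W : Type} [Fintype V] [Fintype W] (G : SimpleGraph V) (H : SimpleGraph W)
    [DecidableRel G.Adj] [DecidableRel H.Adj] (φ : G ≃g H) : inv1 G = inv1 H := by
  unfold inv1
  rw [← Equiv.sum_comp φ.toEquiv]
  refine sum_congr rfl (fun w _ => ?_)
  simp only [RelIso.coe_fn_toEquiv, nb_iso G H φ (fun _ => 1) (fun _ => 1) (fun _ => rfl)]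

theorem h1 : ∀ u v, inv1 (card' G0 u) = inv1 (card' G0 v) → t u = t v := by decide +kernel

theorem card_iff (u v : Fin 9) : Nonempty (card' G0 u ≃g card' G0 v) ↔ t u = t v := by
  constructor
  · rintro ⟨φ⟩
    exact h1 u v (inv1_iso _ _ φ)
  · intro h
    have a := isoT u
    rw [h] at a
    exact ⟨a.symm.trans (isoT v)⟩

def w2 : Fin 9 → ℕ := nb G0 (nb G0 (fun _ => 1))
def w3 : Fin 9 → ℕ := nb G0 (fun v => if w2 v = 18 then 1 else 0)
def r : Fin 5 → Fin 9 := ![0, 1, 3, 5, 7]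

theorem h2 : ∀ i j, w2 (r i) = w2 (r j) → w3 (r i) = w3 (r j) → i = j := by decide +kernel

theorem result : ∃ (n : ℕ) (G : SimpleGraph (Fin n)), G.Connected ∧ cardTypes G = 4 ∧
    4 < orbits G := by
  refine ⟨9, G0, by decide +kernel, ?_, ?_⟩
  · unfold cardTypes
    simp only [card_iff]
    have : (Set.range (fun u => {v | t u = t v})) =
        (fun u => {v | u = t v}) '' ((univ.image t : Finset (Fin 9)) : Set (Fin 9)) := by
      ext S
      simp
    rw [this, Set.InjOn.ncard_image, Set.ncard_coe_finset]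
    · decide
    · intro a ha b _ hab
      obtain ⟨x, _, rfl⟩ := mem_image.1 ha
      have : x ∈ {v | b = t v} := by
        have h : x ∈ {v | t x = t v} := rfl
        simp only at hab
        rwa [hab] at h
      exact this.symm
  · have hinj : Function.Injective (fun i => {v | ∃ φ : G0 ≃g G0, φ (r i) = v}) := by
      intro i j hij
      have : r j ∈ {v | ∃ φ : G0 ≃g G0, φ (r i) = v} := by
        simp only at hij
        rw [hij]
        exact ⟨RelIso.refl _, rfl⟩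
      obtain ⟨φ, hφ⟩ := this
      have e2 : ∀ v, w2 (φ v) = w2 v :=
        nb_iso G0 G0 φ _ _ (nb_iso G0 G0 φ (fun _ => 1) (fun _ => 1) (fun _ => rfl))
      have e3 : ∀ v, w3 (φ v) = w3 v := nb_iso G0 G0 φ _ _ (fun v => by simp only [e2])
      apply h2
      · rw [← hφ, e2]
      · rw [← hφ, e3]
    have := Set.ncard_le_ncard (Set.range_comp_subset_range r
      (fun u => {v | ∃ φ : G0 ≃g G0, φ u = v})) (Set.toFinite _)
    rw [show ((fun u => {v | ∃ φ : G0 ≃g G0, φ u = v}) ∘ r) =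
      (fun i => {v | ∃ φ : G0 ≃g G0, φ (r i) = v}) from rfl, Set.ncard_range_of_injective hinj]
      at this
    simp only [Nat.card_eq_fintype_card, Fintype.card_fin] at this
    exact this

end Pool.Agent.Results.MP_73128c_co.Four
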